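import Pool.Agent.Q138.PS.TV
import Pool.Agent.Results.MP_83e36b_nt.QuadraticTwists

/-!
# Weak approximation for almost all of the twists `w² = ± ⌊r P(k)⌋ F(x; u, v)`

Let `F = A(x) u² + B(x) u v + D(x) v²` with forms `A, B, D ∈ ℤ[x_0, ..., x_n]` of degrees `2 α`, `α + δ`, `2 δ` and
squarefree discriminant `B² - 4 A D`. Let `q ≥ 2`. Outside a set of real numbers of Hausdorff dimension at most
`q / (q + 1 / (q 2 ^ (q - 1)))` (that is `8 / 9` for `q = 2`) every `r > 0` has the following property, for all these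
forms. For ALL integral polynomials `P` of degree `q` with positive leading coefficient and coefficients of size at most
`N ^ η` a positive proportion of the numbers `a = ± ⌊r P(k)⌋`, `k ≤ N`, is squarefree and such that the variety
`w² = a F(x; u, v)` has local points in given open sets, and for almost all of them it has a rational point there.
-/

set_option autoImplicit false

open Finset Filter Topology MeasureTheory Polynomial
open Pool.Agent.Q138.PS

namespace Pool.Agent.Results.MP_83e36b_nt.ApproximationRealMultiples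

/-- The variety `w² = a (A(x) u² + B(x) u v + D(x) v²)` has a point `(x, (u, v), w)` over the field
`K` with `w ≠ 0` and with `(x, (u, v))` in the set `Ω`. -/
def HasPoint {n : ℕ} (A B D : MvPolynomial (Fin (n + 1)) ℤ) (a : ℤ) {K : Type} [Field K]
    (Ω : Set ((Fin (n + 1) → K) × (Fin 2 → K))) : Prop :=
  ∃ x ∈ Ω, ∃ w : K, w ≠ 0 ∧ w ^ 2 = (a : K) * (MvPolynomial.aeval x.1 A * x.2 0 ^ 2 +
    MvPolynomial.aeval x.1 B * (x.2 0 * x.2 1) + MvPolynomial.aeval x.1 D * x.2 1 ^ 2)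

/-- Nonempty open sets `re` of `ℝ ^ (n + 1) × ℝ ^ 2` and `pa p` of `ℚ_p ^ (n + 1) × ℚ_p ^ 2`,
almost all of them equal to the whole space. -/
structure OpenSets (n : ℕ) where
  /-- the real set -/
  re : Set ((Fin (n + 1) → ℝ) × (Fin 2 → ℝ))
  /-- the `p`-adic sets -/
  pa : ∀ p : Nat.Primes, Set ((Fin (n + 1) → ℚ_[(p : ℕ)]) × (Fin 2 → ℚ_[(p : ℕ)]))
  isOpen_re : IsOpen re
  isOpen_pa : ∀ p, IsOpen (pa p)
  nonempty_re : re.Nonempty
  nonempty_pa : ∀ p, (pa p).Nonempty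
  finite : {p : Nat.Primes | pa p ≠ Set.univ}.Finite

/-- `a` is squarefree and the twist has a point over `ℝ` and over every `ℚ_p` with coordinates in the given open sets -/
def Local {n : ℕ} (A B D : MvPolynomial (Fin (n + 1)) ℤ) (Ω : OpenSets n) (a : ℤ) : Prop :=
  Squarefree a ∧ HasPoint A B D a Ω.re ∧ ∀ p : Nat.Primes, HasPoint A B D a (Ω.pa p)

/-- `a` is squarefree and the twist has a rational point with coordinates in all the given open sets -/
def Global {n : ℕ} (A B D : MvPolynomial (Fin (n + 1)) ℤ) (Ω : OpenSets n) (a : ℤ) : Prop :=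
  Squarefree a ∧ HasPoint A B D a {x : (Fin (n + 1) → ℚ) × (Fin 2 → ℚ) |
      ((fun i => (x.1 i : ℝ)), (fun i => (x.2 i : ℝ))) ∈ Ω.re ∧ ∀ p : Nat.Primes,
      ((fun i => (x.1 i : ℚ_[(p : ℕ)])), (fun i => (x.2 i : ℚ_[(p : ℕ)]))) ∈ Ω.pa p}

open Classical in
/-- the number of the pairs of an integer `1 ≤ k ≤ N` and a sign `s` for which `a = s ⌊r P(k)⌋` has the property `Z` -/
noncomputable def count (r : ℝ) (P : ℤ[X]) (N : ℕ) (Z : ℤ → Prop) : ℕ :=
  ((Icc 1 N ×ˢ ({1, -1} : Finset ℤ)).filter fun x : ℕ × ℤ =>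
    Z (x.2 * (⌊r * ((P.eval (x.1 : ℤ) : ℤ) : ℝ)⌋₊ : ℤ))).card

theorem map_point {n : ℕ} (A B D : MvPolynomial (Fin (n + 1)) ℤ) (a : ℤ) {K : Type} [Field K] (φ : ℚ →+* K)
    (Ω : Set ((Fin (n + 1) → ℚ) × (Fin 2 → ℚ))) (Ω' : Set ((Fin (n + 1) → K) × (Fin 2 → K)))
    (h : ∀ x ∈ Ω, ((fun i => φ (x.1 i)), (fun i => φ (x.2 i))) ∈ Ω') (hp : HasPoint A B D a Ω) :
    HasPoint A B D a Ω' := by
  obtain ⟨x, hx, w, hw, he⟩ := hp
  refine ⟨_, h x hx, φ w, (map_ne_zero φ).2 hw, ?_⟩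
  have e : ∀ F : MvPolynomial (Fin (n + 1)) ℤ, MvPolynomial.aeval (fun i => φ (x.1 i)) F = φ (MvPolynomial.aeval x.1 F) := by
    intro F
    rw [MvPolynomial.aeval_def, MvPolynomial.aeval_def, MvPolynomial.eval₂_comp_left φ]
    congr 1
    exact RingHom.ext_int _ _
  simp only [e]
  rw [← map_pow, he]
  simp only [map_mul, map_add, map_pow, map_intCast]

theorem glob_loc {n : ℕ} (A B D : MvPolynomial (Fin (n + 1)) ℤ) (Ω : OpenSets n) (a : ℤ)
    (h : Global A B D Ω a) : Local A B D Ω a := by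
  refine ⟨h.1, ?_, fun p => ?_⟩
  · exact map_point A B D a (algebraMap ℚ ℝ) _ _ (fun x hx => hx.1) h.2
  · exact map_point A B D a (algebraMap ℚ ℚ_[(p : ℕ)]) _ _ (fun x hx => hx.2 p) h.2

/-- the index set: three forms in `n + 1` variables and a number -/
abbrev Idx : Type := Σ n : ℕ, (MvPolynomial (Fin (n + 1)) ℤ × MvPolynomial (Fin (n + 1)) ℤ ×
  MvPolynomial (Fin (n + 1)) ℤ) × ℕ

theorem countable_pol (n : ℕ) : Countable (MvPolynomial (Fin n) ℤ) :=
  Cardinal.mk_le_aleph0_iff.1 (by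
    refine (MvPolynomial.cardinalMk_le_max (σ := Fin n) (R := ℤ)).trans ?_
    simp)

theorem countable_idx : Countable Idx := by
  have := fun n => countable_pol n
  infer_instance

theorem result (q : ℕ) (hq : 2 ≤ q) (Ω : ∀ n : ℕ, ℕ → OpenSets n) :
    ∃ E : Set ℝ, dimH E ≤ ENNReal.ofReal ((q : ℝ) / (q + 1 / (q * 2 ^ (q - 1)))) ∧ ∀ r : ℝ, 0 < r → r ∉ E →
      ∀ (n α δ : ℕ) (A B D : MvPolynomial (Fin (n + 1)) ℤ), A.IsHomogeneous (2 * α) →
      B.IsHomogeneous (α + δ) → D.IsHomogeneous (2 * δ) → 1 ≤ α + δ →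
      Squarefree (MvPolynomial.map (Int.castRingHom ℚ) (B ^ 2 - 4 * A * D)) → ∀ i : ℕ,
      ∃ η κ : ℝ, 0 < η ∧ 0 < κ ∧ ∀ ε : ℝ, 0 < ε → ∀ᶠ N : ℕ in atTop, ∀ P : ℤ[X], P.natDegree = q →
        0 < P.leadingCoeff → (∀ j, |((P.coeff j : ℤ) : ℝ)| ≤ (N : ℝ) ^ η) →
        κ * N ≤ count r P N (Local A B D (Ω n i)) ∧
        (1 - ε) * count r P N (Local A B D (Ω n i)) ≤ count r P N (Global A B D (Ω n i)) := by
  classical
  have := countable_idx
  obtain ⟨E, hE, hT⟩ := almost_sgn q hq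
    (fun i : Idx => Local i.2.1.1 i.2.1.2.1 i.2.1.2.2 (Ω i.1 i.2.2))
    (fun i : Idx => Global i.2.1.1 i.2.1.2.1 i.2.1.2.2 (Ω i.1 i.2.2)) (fun i h => not_squarefree_zero h.1)
  refine ⟨E, hE, fun r hr hrE n α δ A B D hA hB hD hαδ hsq i => ?_⟩
  obtain ⟨⟨c, hc, h1⟩, h2⟩ := MP_83e36b_nt.QuadraticTwists.result n α δ A B D hA hB hD hαδ hsq
    ⟨(Ω n i).re, (Ω n i).pa, (Ω n i).isOpen_re, (Ω n i).isOpen_pa, (Ω n i).nonempty_re, (Ω n i).nonempty_pa,
      (Ω n i).finite⟩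
  obtain ⟨η, hη, hR⟩ := hT r hr hrE ⟨n, (A, B, D), i⟩
  have habs : ∀ (H : ℕ) (a : ℤ), |a| ≤ (H : ℤ) ↔ a.natAbs ≤ H := by
    intro H a
    rw [Int.abs_eq_natAbs]
    exact_mod_cast Iff.rfl
  have eT : ∀ H : ℕ, nz (Local A B D (Ω n i)) H =
      ((QuadraticTwists.locallySoluble A B D ⟨(Ω n i).re, (Ω n i).pa, (Ω n i).isOpen_re, (Ω n i).isOpen_pa,
        (Ω n i).nonempty_re, (Ω n i).nonempty_pa, (Ω n i).finite⟩ H).ncard : ℝ) := by
    intro H
    unfold nz QuadraticTwists.locallySoluble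
    congr 2
    ext a
    simp only [Set.mem_ofPred_eq, habs]
    exact Iff.rfl
  have eG : ∀ H : ℕ, nz (fun a => Local A B D (Ω n i) a ∧ Global A B D (Ω n i) a) H =
      ((QuadraticTwists.globallySoluble A B D ⟨(Ω n i).re, (Ω n i).pa, (Ω n i).isOpen_re, (Ω n i).isOpen_pa,
        (Ω n i).nonempty_re, (Ω n i).nonempty_pa, (Ω n i).finite⟩ H).ncard : ℝ) := by
    intro H
    unfold nz QuadraticTwists.globallySoluble
    congr 2
    ext a
    simp only [Set.mem_ofPred_eq, habs]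
    constructor
    · rintro ⟨g1, -, g2⟩
      exact ⟨g1, g2⟩
    · rintro ⟨g1, g2⟩
      exact ⟨g1, glob_loc _ _ _ _ _ g2, g2⟩
  refine ⟨η, c / (64 * q), hη, by positivity, fun ε hε => ?_⟩
  have k1 := hR c hc (by
    filter_upwards [h1] with y hy
    show _ ≤ nz (Local A B D (Ω n i)) y
    rw [eT]
    exact hy) (by
    refine h2.congr fun H => ?_
    show _ = nz (fun a => Local A B D (Ω n i) a ∧ Global A B D (Ω n i) a) H / nz (Local A B D (Ω n i)) H
    rw [eT, eG]) ε hε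
  filter_upwards [k1] with N g1
  intro P hdeg hlead hco
  obtain ⟨j1, j2⟩ := g1 P hdeg hlead hco
  refine ⟨j1, j2.trans ?_⟩
  have j3 := cnS_mono (fun a => Local A B D (Ω n i) a ∧ Global A B D (Ω n i) a) (Global A B D (Ω n i))
    (fun d hd => hd.2) r P N
  exact_mod_cast j3

end Pool.Agent.Results.MP_83e36b_nt.ApproximationRealMultiples
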