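import Pool.Agent.Q138.PS.UY
import Pool.Agent.TH204.HP.H19
import Pool.Agent.TH204.HP.H23

/-!
# Weak approximation for the fibrations `y_i² - a_i z_i² = b_i t (f(t) + k)` in products of conics, `|k|` near `α P(n)`

Let `f` be an integral polynomial of degree at least one, let `a_i`, `b_i` be nonzero integers, `i < r`, and let `W_k` be the
variety `y_i² - a_i z_i² = b_i t (f(t) + k) ≠ 0`, `i < r`, of dimension `r + 1`. Its smooth proper models are rationally
connected: they are fibred over the line in products of conics, with degenerate fibres over `0`, over the roots of `f + k` and,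
for `f` of even degree, over infinity; in the latter case the algebras `(a_i, t)` are unramified, and in general not constant.

Let `q ≥ 2`. Outside ONE set `E` of real numbers of Hausdorff dimension at most `q / (q + 1 / (q 2 ^ (q - 1)))` (that is `8 / 9`
for `q = 2`) every `α > 0` has the following property. There is `η > 0` such that for all these `f`, `a`, `b`, all finite sets
`T` of primes (containing the small and the bad ones, or with `r = 1`), all `N`, `L` and `ε > 0`: for all large `M` and ALL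
integral polynomials `P` of degree `q` with positive leading coefficient and coefficients of size at most `M ^ η`, for all but
`ε M` of the `n ≤ M`, for EVERY integer `k` with `||k| - ⌊α P(n)⌋| ≤ L`: all families of points of `W_k` over `ℚ_p`, `p` in `T`,
(bounded by `N`) and of a real point can be approximated by rational points of `W_k`.

Proof: this holds for 100% of all `|k| ≤ X` (`TH204.HP.thmC`, `thmCr`, that is the starting files `ShiftedWithBrauerClass` and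
`MP_a19274_nt.AlmostAllProductsOfConics`), which says nothing on a set of integers of density zero such as the `⌊α P(n)⌋`; the
sets of density zero are avoided by most members of these sequences (`Q138.PS.UY`).
-/

set_option autoImplicit false

namespace Pool.Agent.Results.MP_83e36b_nt.ConicProductsRealMultiples

open Finset Filter Topology
open Pool.Agent.Q138.PS

instance (p : Nat.Primes) : Fact (p : ℕ).Prime := ⟨p.2⟩

/-- the point `(t, y, z)` with coordinates in the field `F` lies on `W_k : y_i² - a_i z_i² = b_i t (f(t) + k) ≠ 0`, `i < r` -/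
def OnW {r : ℕ} (f : Polynomial ℤ) (a b : Fin r → ℤ) (k : ℤ) {F : Type} [Field F] (t : F) (y z : Fin r → F) : Prop :=
  t ≠ 0 ∧ Polynomial.aeval t f + (k : F) ≠ 0 ∧
    ∀ i, y i ^ 2 - (a i : F) * z i ^ 2 = (b i : F) * (t * (Polynomial.aeval t f + (k : F)))

/-- weak approximation of level `N` at the primes of `T`: for all families of `p`-adic points `(t, y, z)` of `W_k`, `p` in `T`,
with coordinates of absolute value at most `p ^ N`, `|t| ≥ p ^ (-N)` and `|f(t) + k| ≥ p ^ (-N)`, and for all real points of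
`W_k` there is a rational point `(s, Y, Z)` of `W_k` whose coordinates are at the distance at most `p ^ (-N)` from those of the
given point, for all `p` in `T`, and such that `s` has the same sign as the coordinate `t` of the real point. -/
def WA {r : ℕ} (f : Polynomial ℤ) (a b : Fin r → ℤ) (T : Finset Nat.Primes) (N : ℕ) (k : ℤ) : Prop :=
  ∀ (t : (p : Nat.Primes) → ℚ_[(p : ℕ)]) (y z : (p : Nat.Primes) → Fin r → ℚ_[(p : ℕ)]) (tr : ℝ) (yr zr : Fin r → ℝ),
    (∀ p ∈ T, OnW f a b k (t p) (y p) (z p) ∧ ‖t p‖ ≤ ((p : ℕ) : ℝ) ^ N ∧ (∀ i, ‖y p i‖ ≤ ((p : ℕ) : ℝ) ^ N) ∧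
      (∀ i, ‖z p i‖ ≤ ((p : ℕ) : ℝ) ^ N) ∧ (((p : ℕ) : ℝ) ^ N)⁻¹ ≤ ‖t p‖ ∧
      (((p : ℕ) : ℝ) ^ N)⁻¹ ≤ ‖Polynomial.aeval (t p) f + (k : ℚ_[(p : ℕ)])‖) →
    OnW f a b k tr yr zr →
    ∃ (s : ℚ) (Y Z : Fin r → ℚ), OnW f a b k s Y Z ∧ 0 < (s : ℝ) * tr ∧
      ∀ p ∈ T, ‖(s : ℚ_[(p : ℕ)]) - t p‖ ≤ (((p : ℕ) : ℝ) ^ N)⁻¹ ∧
        ∀ i, ‖(Y i : ℚ_[(p : ℕ)]) - y p i‖ ≤ (((p : ℕ) : ℝ) ^ N)⁻¹ ∧ ‖(Z i : ℚ_[(p : ℕ)]) - z p i‖ ≤ (((p : ℕ) : ℝ) ^ N)⁻¹

/-- `T` contains the primes `p ≤ 2 deg f` and those dividing the leading coefficient of `f` or some `a_i b_i` -/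
def Big {r : ℕ} (f : Polynomial ℤ) (a b : Fin r → ℤ) (T : Finset Nat.Primes) : Prop :=
  ∀ p : Nat.Primes, ((p : ℕ) ≤ 2 * f.natDegree ∨ ((p : ℕ) : ℤ) ∣ f.leadingCoeff * ∏ i, (a i * b i)) → p ∈ T

open Classical in
/-- the number of the `1 ≤ n ≤ M` such that `WA` fails for some integer `k` with `||k| - ⌊α P(n)⌋| ≤ L` -/
noncomputable def failures {r : ℕ} (f : Polynomial ℤ) (a b : Fin r → ℤ) (T : Finset Nat.Primes) (N L : ℕ) (α : ℝ)
    (P : Polynomial ℤ) (M : ℕ) : ℕ :=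
  ((Icc 1 M).filter fun n : ℕ => ∃ k : ℤ, |(|k| - (⌊α * ((P.eval (n : ℤ) : ℤ) : ℝ)⌋₊ : ℤ))| ≤ (L : ℤ) ∧
    ¬ WA f a b T N k).card

/-- `WA` fails for `j` or `-j` -/
def Bad {r : ℕ} (f : Polynomial ℤ) (a b : Fin r → ℤ) (T : Finset Nat.Primes) (N : ℕ) (j : ℕ) : Prop :=
  ∃ k : ℤ, k.natAbs = j ∧ ¬ WA f a b T N k

theorem failures_eq {r : ℕ} (f : Polynomial ℤ) (a b : Fin r → ℤ) (T : Finset Nat.Primes) (N L : ℕ) (α : ℝ)
    (P : Polynomial ℤ) (M : ℕ) : (failures f a b T N L α P M : ℝ) = cnP (nb (Bad f a b T N) L) α P M := by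
  classical
  unfold failures cnP cn
  refine congrArg _ (congrArg _ ?_)
  ext n
  rw [mem_filter, mem_filter]
  refine and_congr_right fun _ => ?_
  constructor
  · rintro ⟨t, h2, h3⟩
    rw [abs_le, Int.abs_eq_natAbs t] at h2
    exact ⟨t.natAbs, ⟨t, rfl, h3⟩, by omega, by omega⟩
  · rintro ⟨j, ⟨t, h2, h3⟩, h4, h5⟩
    refine ⟨t, ?_, h3⟩
    rw [abs_le, Int.abs_eq_natAbs t]
    omega

theorem cn_of_int (Z : ℤ → Prop) [DecidablePred Z] (X : ℕ → Prop) (hX : ∀ j, X j → ∃ k : ℤ, k.natAbs = j ∧ Z k) (Y : ℕ) :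
    cn X Y ≤ (((Icc (-(Y : ℤ)) Y).filter Z).card : ℝ) := by
  classical
  have h1 : (Icc 1 Y).filter X ⊆ ((Icc (-(Y : ℤ)) Y).filter Z).image Int.natAbs := by
    intro j hj
    rw [mem_filter, mem_Icc] at hj
    obtain ⟨k, hk, hZ⟩ := hX j hj.2
    refine mem_image.2 ⟨k, mem_filter.2 ⟨?_, hZ⟩, hk⟩
    rw [mem_Icc]
    omega
  have h2 := (card_le_card h1).trans card_image_le
  unfold cn
  refine le_trans (le_of_eq ?_) (Nat.cast_le.2 h2)
  refine congrArg _ (congrArg _ ?_)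
  ext n
  simp only [mem_filter]

theorem facts {r : ℕ} (f : Polynomial ℤ) (hf : 1 ≤ f.natDegree) (a b : Fin r → ℤ) (ha : ∀ i, a i ≠ 0) (hb : ∀ i, b i ≠ 0)
    (T : Finset Nat.Primes) (hT : r = 1 ∨ Big f a b T) (N : ℕ) (δ : ℝ) (hδ : 0 < δ) :
    ∀ᶠ y : ℕ in atTop, cn (Bad f a b T N) y ≤ δ * y := by
  classical
  rcases hT with hr | hT
  · subst hr
    obtain ⟨X0, h⟩ := Pool.Agent.TH204.HP.thmC f hf (a 0) (b 0) (ha 0) (hb 0) T N δ hδ
    filter_upwards [eventually_ge_atTop X0] with X hX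
    refine (cn_of_int (fun k => ¬ Pool.Agent.TH204.HP.WC f (a 0) (b 0) T N k) _ ?_ X).trans (le_trans (le_of_eq ?_) (h X hX))
    · rintro j ⟨k, hk, hk2⟩
      refine ⟨k, hk, fun hw => hk2 ?_⟩
      intro t y z tr yr zr hloc hre
      obtain ⟨s, Y, Z, g1, g2, g3⟩ := hw t (fun p => y p 0) (fun p => z p 0) tr (yr 0) (zr 0)
        (fun p hp => by
          obtain ⟨h1, h2, h3, h4, h5, h6⟩ := hloc p hp
          exact ⟨⟨h1.1, h1.2.1, h1.2.2 0⟩, h2, h3 0, h4 0, h5, h6⟩)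
        ⟨hre.1, hre.2.1, hre.2.2 0⟩
      refine ⟨s, fun _ => Y, fun _ => Z, ⟨g1.1, g1.2.1, fun i => ?_⟩, g2, fun p hp => ⟨(g3 p hp).1, fun i => ?_⟩⟩
      · rw [Subsingleton.elim i 0]
        exact g1.2.2
      · rw [Subsingleton.elim i 0]
        exact (g3 p hp).2
    · congr!
  · obtain ⟨X0, h⟩ := Pool.Agent.TH204.HP.thmCr f hf a b ha hb T (fun p hp => by
      apply hT p
      rcases hp with h | h | ⟨i, h⟩
      · exact Or.inl h
      · exact Or.inr (h.mul_right _)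
      · refine Or.inr (Dvd.dvd.mul_left (dvd_trans ?_ (dvd_prod_of_mem (fun i => a i * b i) (mem_univ i))) _)
        rcases h with h | h
        · exact h.mul_right _
        · exact h.mul_left _) N δ hδ
    filter_upwards [eventually_ge_atTop X0] with X hX
    refine (cn_of_int (fun k => ¬ Pool.Agent.TH204.HP.WCr f a b T N k) _ ?_ X).trans (le_trans (le_of_eq ?_) (h X hX))
    · rintro j ⟨k, hk, hk2⟩
      exact ⟨k, hk, fun hw => hk2 hw⟩
    · congr!

/-- **Theorem.** -/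
theorem result (q : ℕ) (hq : 2 ≤ q) :
    ∃ E : Set ℝ, dimH E ≤ ENNReal.ofReal (q / (q + 1 / ((q : ℝ) * 2 ^ (q - 1)))) ∧ ∀ α : ℝ, 0 < α → α ∉ E →
      ∃ η : ℝ, 0 < η ∧ ∀ (r : ℕ) (f : Polynomial ℤ), 1 ≤ f.natDegree → ∀ a b : Fin r → ℤ, (∀ i, a i ≠ 0) →
      (∀ i, b i ≠ 0) → ∀ T : Finset Nat.Primes, (r = 1 ∨ Big f a b T) → ∀ (N L : ℕ) (ε : ℝ), 0 < ε →
        ∀ᶠ M : ℕ in atTop, ∀ P : Polynomial ℤ, P.natDegree = q → 0 < P.leadingCoeff →
          (∀ j, |((P.coeff j : ℤ) : ℝ)| ≤ (M : ℝ) ^ η) → (failures f a b T N L α P M : ℝ) ≤ ε * M := by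
  classical
  have : Countable (Polynomial ℤ) := by
    rw [← Cardinal.mk_le_aleph0_iff]
    exact Polynomial.cardinalMk_le_max.trans (by simp)
  obtain ⟨E, hE, hg⟩ := zero_win (ι := (Σ r : ℕ, Polynomial ℤ × (Fin r → ℤ) × (Fin r → ℤ)) × Finset Nat.Primes × ℕ) q hq
    (fun i => Bad i.1.2.1 i.1.2.2.1 i.1.2.2.2 i.2.1 i.2.2)
  refine ⟨E, hE, fun α hα hαE => ?_⟩
  obtain ⟨η, hη, h1⟩ := hg α hα hαE
  refine ⟨η, hη, fun r f hf a b ha hb T hT N L ε hε => ?_⟩
  filter_upwards [h1 ⟨⟨r, f, a, b⟩, T, N⟩ (fun δ hδ => facts f hf a b ha hb T hT N δ hδ) L ε hε] with M hM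
  intro P hdeg hlead hco
  rw [failures_eq]
  exact hM P hdeg hlead hco

end Pool.Agent.Results.MP_83e36b_nt.ConicProductsRealMultiples
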