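import Pool.Agent.Q138.PS.ZA
import Pool.Agent.Q138.PS.ZB

/-!
# Brauer-Manin obstruction for fibrations in products of conics, all shifts near dilated sequences

Let `f_1, …, f_s` be integral polynomials of positive degrees `d_j`, `a_i, c_i` nonzero integers and `E_i` sets of indices. For
`k` in `ℤ^s` consider the variety

  `V_k : y_i² - a_i z_i² = c_i ∏_{j ∈ E_i} (f_j(t) + k_j) ≠ 0`, `i = 1, …, r`.

Its smooth proper models are rationally connected (fibred over the `t`-line in products of conics). Let `λ_n` be any sequence of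
real numbers which is at least `exp (n ^ δ)` for large `n`, for instance `α ^ n`, `exp (√n)`, `n!`. For almost all `κ` in `ℝ^s` we show, for
ALL `f_j, a_i, c_i, E_i`, all finite sets `T` of primes containing the small and the bad ones, and all levels of precision `N`, `B`: for all
large `n` and ALL `k` in `ℤ^s` with `|k_j - κ_j λ_n ^ d_j| ≤ D log ^ e λ_n` (any `D`, `e`), every family of points of `V_k` over the `ℚ_p`, `p` in
`T`, and over `ℝ` at which the sum of the invariants of each `(a_i, f_j(t) + k_j)`, `j` in `E_i`, vanishes is approximated by rational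
points. If every `E_i` has one element, this condition is always satisfied, so we get weak approximation.

For instance `k_j` may be the integer formed by the first `n d_j` decimals of `κ_j`: almost all vectors of real numbers have the
property that all their truncated decimal expansions with at least `n_0` digits give varieties `V_k` for which these classes are the
only obstruction, to the given precision.
-/

set_option autoImplicit false

namespace Pool.Agent.Results.MP_83e36b_nt.ShiftsNearSequences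

open Finset Polynomial Filter Topology MeasureTheory

instance (p : Nat.Primes) : Fact (p : ℕ).Prime := ⟨p.2⟩

/-- the point `(t, y, z)` with coordinates in the field `F` lies on
`V_k : y_i² - a_i z_i² = c_i ∏_{j ∈ E_i} (f_j(t) + k_j)`, with all the `f_j(t) + k_j ≠ 0` -/
def OnV {r s : ℕ} (f : Fin s → ℤ[X]) (a c : Fin r → ℤ) (E : Fin r → Finset (Fin s)) (k : Fin s → ℤ) {F : Type} [Field F]
    (t : F) (y z : Fin r → F) : Prop :=
  (∀ j, aeval t (f j) + (k j : F) ≠ 0) ∧ ∀ i, y i ^ 2 - (a i : F) * z i ^ 2 = (c i : F) * ∏ j ∈ E i, (aeval t (f j) + (k j : F))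

/-- given points: for `p` in `T` the point `(t, y, z)` lies on `V_k`, its coordinates have absolute value at most `p ^ N` and
`|f_j(t) + k_j| ≥ p ^ (-N)`; and `(tr, yr, zr)` is a real point of `V_k` with `|tr| ≤ B X`, `|f_j(tr) + k_j| ≥ X ^ deg f_j / B`
and `yr_i², zr_i² ≤ B X ^ (∑_{j ∈ E_i} deg f_j)` -/
def Given {r s : ℕ} (f : Fin s → ℤ[X]) (a c : Fin r → ℤ) (E : Fin r → Finset (Fin s)) (T : Finset Nat.Primes) (N B X : ℕ)
    (k : Fin s → ℤ) (t : (p : Nat.Primes) → ℚ_[(p : ℕ)]) (y z : (p : Nat.Primes) → Fin r → ℚ_[(p : ℕ)]) (tr : ℝ)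
    (yr zr : Fin r → ℝ) : Prop :=
  (∀ p ∈ T, OnV f a c E k (t p) (y p) (z p) ∧ ‖t p‖ ≤ ((p : ℕ) : ℝ) ^ N ∧
    (∀ i, ‖y p i‖ ≤ ((p : ℕ) : ℝ) ^ N ∧ ‖z p i‖ ≤ ((p : ℕ) : ℝ) ^ N) ∧
    ∀ j, (((p : ℕ) : ℝ) ^ N)⁻¹ ≤ ‖aeval (t p) (f j) + (k j : ℚ_[(p : ℕ)])‖) ∧
  OnV f a c E k tr yr zr ∧ |tr| ≤ B * X ∧ (∀ j, (X : ℝ) ^ (f j).natDegree ≤ B * |aeval tr (f j) + (k j : ℝ)|) ∧
  ∀ i, yr i ^ 2 ≤ B * (X : ℝ) ^ (∑ j ∈ E i, (f j).natDegree) ∧ zr i ^ 2 ≤ B * (X : ℝ) ^ (∑ j ∈ E i, (f j).natDegree)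

/-- there is a rational point `(q, Y, Z)` of `V_k` whose coordinates are at distance at most `p ^ (-N)` from those of the given
`p`-adic point, for all `p` in `T`, and with `|q - tr| ≤ X / B` and
`(Y_i - yr_i)², (Z_i - zr_i)² ≤ X ^ (∑_{j ∈ E_i} deg f_j) / B` -/
def Approximated {r s : ℕ} (f : Fin s → ℤ[X]) (a c : Fin r → ℤ) (E : Fin r → Finset (Fin s)) (T : Finset Nat.Primes)
    (N B X : ℕ) (k : Fin s → ℤ) (t : (p : Nat.Primes) → ℚ_[(p : ℕ)]) (y z : (p : Nat.Primes) → Fin r → ℚ_[(p : ℕ)]) (tr : ℝ)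
    (yr zr : Fin r → ℝ) : Prop :=
  ∃ (q : ℚ) (Y Z : Fin r → ℚ), OnV f a c E k q Y Z ∧
    (∀ p ∈ T, ‖(q : ℚ_[(p : ℕ)]) - t p‖ ≤ (((p : ℕ) : ℝ) ^ N)⁻¹ ∧ ∀ i, ‖(Y i : ℚ_[(p : ℕ)]) - y p i‖ ≤ (((p : ℕ) : ℝ) ^ N)⁻¹ ∧
      ‖(Z i : ℚ_[(p : ℕ)]) - z p i‖ ≤ (((p : ℕ) : ℝ) ^ N)⁻¹) ∧
    B * |(q : ℝ) - tr| ≤ X ∧
    ∀ i, B * ((Y i : ℝ) - yr i) ^ 2 ≤ (X : ℝ) ^ (∑ j ∈ E i, (f j).natDegree) ∧
      B * ((Z i : ℝ) - zr i) ^ 2 ≤ (X : ℝ) ^ (∑ j ∈ E i, (f j).natDegree)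

/-- `x` is not of the form `y² - a z²`: the quaternion algebra `(a, x)` over the field `F` does not split (`x ≠ 0`) -/
def Nonsplit {F : Type} [Field F] (a x : F) : Prop := ¬ ∃ y z : F, y ^ 2 - a * z ^ 2 = x

open Classical in
/-- for all `i` and all `j` in `E_i` the sum over the places of `T` and the real place of the invariants of `(a_i, f_j(t) + k_j)` is
`0` at the given points: an even number of these algebras does not split -/
def Orthogonal {r s : ℕ} (f : Fin s → ℤ[X]) (a : Fin r → ℤ) (E : Fin r → Finset (Fin s)) (T : Finset Nat.Primes)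
    (k : Fin s → ℤ) (t : (p : Nat.Primes) → ℚ_[(p : ℕ)]) (tr : ℝ) : Prop :=
  ∀ i, ∀ j ∈ E i, Even (#(T.filter (fun p : Nat.Primes => Nonsplit (a i : ℚ_[(p : ℕ)]) (aeval (t p) (f j) + (k j : ℚ_[(p : ℕ)])))) +
    (if Nonsplit (a i : ℝ) (aeval tr (f j) + (k j : ℝ)) then 1 else 0))

/-- all given points are approximated -/
def Weak {r s : ℕ} (f : Fin s → ℤ[X]) (a c : Fin r → ℤ) (E : Fin r → Finset (Fin s)) (T : Finset Nat.Primes) (N B X : ℕ)
    (k : Fin s → ℤ) : Prop :=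
  ∀ (t : (p : Nat.Primes) → ℚ_[(p : ℕ)]) (y z : (p : Nat.Primes) → Fin r → ℚ_[(p : ℕ)]) (tr : ℝ) (yr zr : Fin r → ℝ),
    Given f a c E T N B X k t y z tr yr zr → Approximated f a c E T N B X k t y z tr yr zr

/-- all given points at which the sums of the invariants vanish are approximated -/
def OnlyObstruction {r s : ℕ} (f : Fin s → ℤ[X]) (a c : Fin r → ℤ) (E : Fin r → Finset (Fin s)) (T : Finset Nat.Primes) (N B X : ℕ)
    (k : Fin s → ℤ) : Prop :=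
  ∀ (t : (p : Nat.Primes) → ℚ_[(p : ℕ)]) (y z : (p : Nat.Primes) → Fin r → ℚ_[(p : ℕ)]) (tr : ℝ) (yr zr : Fin r → ℝ),
    Given f a c E T N B X k t y z tr yr zr → Orthogonal f a E T k t tr → Approximated f a c E T N B X k t y z tr yr zr

open Pool.Agent.W313.BMX (Splits)
open Pool.Agent.TH204.HP Pool.Agent.Y714.RC Pool.Agent.Q138.PS.SV

lemma real_iff (a : ℤ) (ha : a ≠ 0) (x : ℝ) (hx : x ≠ 0) : Nonsplit (a : ℝ) x ↔ a < 0 ∧ x < 0 := by
  unfold Nonsplit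
  rw [conic_iff (a : ℝ) x (by exact_mod_cast ha) hx]
  constructor
  · intro h
    by_contra hcon
    apply h
    rw [← conic_iff (a : ℝ) x (by exact_mod_cast ha) hx]
    rw [not_and_or, not_lt, not_lt] at hcon
    rcases hcon with h1 | h1
    · have ha0 : (0 : ℝ) < a := by
        have : 0 < a := lt_of_le_of_ne h1 (Ne.symm ha)
        exact_mod_cast this
      rcases le_total 0 x with h2 | h2
      · exact ⟨Real.sqrt x, 0, by rw [Real.sq_sqrt h2]; ring⟩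
      · refine ⟨0, Real.sqrt (-x / a), ?_⟩
        rw [Real.sq_sqrt (div_nonneg (by linarith) ha0.le)]
        field_simp
        ring
    · exact ⟨Real.sqrt x, 0, by rw [Real.sq_sqrt h1]; ring⟩
  · rintro ⟨h1, h2⟩ h3
    obtain ⟨y, z, h4⟩ := (conic_iff (a : ℝ) x (by exact_mod_cast ha) hx).2 h3
    have h5 : (a : ℝ) < 0 := by exact_mod_cast h1
    nlinarith [sq_nonneg y, mul_nonneg (neg_nonneg.2 h5.le) (sq_nonneg z)]

open Classical in
/-- the number of nonsplit places -/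
lemma count_eq {s : ℕ} (f : Fin s → ℤ[X]) (a : ℤ) (ha : a ≠ 0) (T : Finset Nat.Primes) (k : Fin s → ℤ) (j : Fin s)
    (t : (p : Nat.Primes) → ℚ_[(p : ℕ)]) (tr : ℝ) (ht : ∀ p ∈ T, PP f k j (t p) ≠ 0) (hr : PP f k j tr ≠ 0) :
    #(T.filter (fun p : Nat.Primes => Nonsplit (a : ℚ_[(p : ℕ)]) (aeval (t p) (f j) + (k j : ℚ_[(p : ℕ)])))) +
      (if Nonsplit (a : ℝ) (aeval tr (f j) + (k j : ℝ)) then 1 else 0) =
    #(T.filter (fun p : Nat.Primes => ¬ Splits (a : ℚ_[(p : ℕ)]) (PP f k j (t p)))) + (if a < 0 ∧ PP f k j tr < 0 then 1 else 0) := by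
  congr 1
  · congr 1
    apply filter_congr
    intro p hp
    unfold Nonsplit
    rw [not_iff_not]
    exact conic_iff (a : ℚ_[(p : ℕ)]) (PP f k j (t p)) (by exact_mod_cast ha) (ht p hp)
  · have h1 : Nonsplit (a : ℝ) (aeval tr (f j) + (k j : ℝ)) ↔ a < 0 ∧ PP f k j tr < 0 := real_iff a ha _ hr
    by_cases h2 : Nonsplit (a : ℝ) (aeval tr (f j) + (k j : ℝ))
    · rw [if_pos h2, if_pos (h1.1 h2)]
    · rw [if_neg h2, if_neg (fun h => h2 (h1.2 h))]

/-- the condition is automatic if each conic contains one polynomial -/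
lemma auto {r s : ℕ} (f : Fin s → ℤ[X]) (a c : Fin r → ℤ) (ha : ∀ i, a i ≠ 0) (hc : ∀ i, c i ≠ 0) (E : Fin r → Finset (Fin s))
    (hE : ∀ i, #(E i) = 1) (T : Finset Nat.Primes) (h2T : ∀ p : Nat.Primes, (p : ℕ) = 2 → p ∈ T)
    (hT1 : ∀ p : Nat.Primes, (∃ i, ((p : ℕ) : ℤ) ∣ a i ∨ ((p : ℕ) : ℤ) ∣ c i) → p ∈ T) (N B X : ℕ) (k : Fin s → ℤ)
    (t : (p : Nat.Primes) → ℚ_[(p : ℕ)]) (y z : (p : Nat.Primes) → Fin r → ℚ_[(p : ℕ)]) (tr : ℝ) (yr zr : Fin r → ℝ)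
    (h : Given f a c E T N B X k t y z tr yr zr) : Orthogonal f a E T k t tr := by
  classical
  intro i j hj
  obtain ⟨hloc, hre, -, -, -⟩ := h
  rw [count_eq f (a i) (ha i) T k j t tr (fun p hp => (hloc p hp).1.1 j) (hre.1 j)]
  have hEi : E i = {j} := by
    obtain ⟨x, hx⟩ := card_eq_one.1 (hE i)
    rw [hx, mem_singleton] at hj
    rw [hx, hj]
  have hTne : T.Nonempty := ⟨⟨2, Nat.prime_two⟩, h2T _ rfl⟩
  obtain ⟨V, hV0, hV⟩ := int_vals f T hTne N k t (fun p hp => (hloc p hp).2.1) (fun p hp => (hloc p hp).2.2.2)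
  have h1 := row_even (a i) (c i) (ha i) (hc i) (E i) V (fun j _ => hV0 j) T h2T (fun p hp => hT1 p ⟨i, Or.inl hp⟩)
    (fun p hp => hT1 p ⟨i, Or.inr hp⟩) (by
      intro p hp
      have h2 := hV p hp
      choose σ hσ hσ2 using h2
      have e1 : ((c i * ∏ j ∈ E i, V j : ℤ) : ℚ_[(p : ℕ)]) = (c i * ∏ j ∈ E i, PP f k j (t p)) * (∏ j ∈ E i, σ j) ^ 2 := by
        push_cast
        rw [← prod_pow, mul_assoc, ← prod_mul_distrib]
        congr 1
        apply prod_congr rfl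
        intro j _
        exact hσ2 j
      rw [e1]
      refine (splits_mul_sq' (prod_ne_zero_iff.2 fun j _ => hσ j)).2 ?_
      have h2 := (hloc p hp).1
      exact (conic_iff _ _ (by exact_mod_cast ha i) (mul_ne_zero (by exact_mod_cast hc i) (prod_ne_zero_iff.2 fun j _ => h2.1 j))).1
        ⟨y p i, z p i, h2.2 i⟩)
    (fun j => PP f k j tr) (fun j _ => hre.1 j) (fun hai => by
      have h4 : (c i : ℝ) * ∏ j ∈ E i, PP f k j tr ≠ 0 :=
        mul_ne_zero (by exact_mod_cast hc i) (prod_ne_zero_iff.2 fun j _ => hre.1 j)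
      have h5 : yr i ^ 2 - (a i : ℝ) * zr i ^ 2 = (c i : ℝ) * ∏ j ∈ E i, PP f k j tr := hre.2 i
      have h6 : 0 ≤ (c i : ℝ) * ∏ j ∈ E i, PP f k j tr := by
        rw [← h5]
        have h7 : (a i : ℝ) < 0 := by exact_mod_cast hai
        nlinarith [sq_nonneg (yr i), sq_nonneg (zr i), mul_nonneg (neg_nonneg.2 h7.le) (sq_nonneg (zr i))]
      exact lt_of_le_of_ne h6 h4.symm)
  rw [hEi, sum_singleton] at h1
  have h2 : #(T.filter (fun p : Nat.Primes => ¬ Splits (a i : ℚ_[(p : ℕ)]) (V j : ℚ_[(p : ℕ)]))) =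
      #(T.filter (fun p : Nat.Primes => ¬ Splits (a i : ℚ_[(p : ℕ)]) (PP f k j (t p)))) := by
    congr 1
    apply filter_congr
    intro p hp
    obtain ⟨σ, hσ, hσ2⟩ := hV p hp j
    rw [hσ2, splits_mul_sq' hσ]
  rw [h2] at h1
  exact h1

theorem countable_pol : Countable ℤ[X] :=
  Cardinal.mk_le_aleph0_iff.1 (by
    refine (Polynomial.cardinalMk_le_max (R := ℤ)).trans ?_
    simp)

/-- **Theorem.** For every sequence `λ_n ≥ exp (n ^ δ)` and almost every `κ` in `ℝ^s`: for ALL nonconstant `f_j`, all nonzero `a_i`, `c_i`, all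
`E_i`, all finite `T` containing the primes `p = 2`, `p ≤ ∑ deg f_j` and those which divide a leading coefficient or some `a_i c_i`, all `N`, `B ≥ 1`
and all real `D`, `e`: for all large `n` and ALL `k` in `ℤ^s` with `|k_j - κ_j λ_n ^ deg f_j| ≤ D (log λ_n) ^ e`: the points of `V_k` with
vanishing sums of invariants are approximated by rational points; if every `E_i` has one element then so are all points. -/
theorem result (s : ℕ) (l : ℕ → ℝ) (δ : ℝ) (hδ : 0 < δ) (hl : ∀ᶠ n : ℕ in atTop, Real.exp ((n : ℝ) ^ δ) ≤ l n) :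
    ∀ᵐ κ : Fin s → ℝ, ∀ (r : ℕ) (f : Fin s → ℤ[X]) (a c : Fin r → ℤ) (E : Fin r → Finset (Fin s)) (T : Finset Nat.Primes),
      (∀ j, 1 ≤ (f j).natDegree) → (∀ i, a i ≠ 0) → (∀ i, c i ≠ 0) →
      (∀ p : Nat.Primes, ((p : ℕ) = 2 ∨ (p : ℕ) ≤ ∑ j, (f j).natDegree ∨ (∃ j, ((p : ℕ) : ℤ) ∣ (f j).leadingCoeff) ∨
        ∃ i, ((p : ℕ) : ℤ) ∣ a i * c i) → p ∈ T) →
      ∀ (N B : ℕ), 1 ≤ B → ∀ D e : ℝ, ∀ᶠ n : ℕ in atTop, ∀ k : Fin s → ℤ,
        (∀ j, |(k j : ℝ) - κ j * l n ^ (f j).natDegree| ≤ D * Real.log (l n) ^ e) →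
          OnlyObstruction f a c E T N B ⌈l n⌉₊ k ∧ ((∀ i, #(E i) = 1) → Weak f a c E T N B ⌈l n⌉₊ k) := by
  classical
  have := countable_pol
  have h0 : ∀ᵐ κ : Fin s → ℝ, ∀ x : Σ r : ℕ, (Fin s → ℤ[X]) × (Fin r → ℤ) × (Fin r → ℤ) × (Fin r → Finset (Fin s)) × Finset Nat.Primes × ℕ × ℕ,
      (∀ j, 1 ≤ (x.2.1 j).natDegree) → (∀ i, x.2.2.1 i ≠ 0) → (∀ i, x.2.2.2.1 i ≠ 0) →
      (∀ p : Nat.Primes, ((p : ℕ) = 2 ∨ (p : ℕ) ≤ ∑ j, (x.2.1 j).natDegree ∨ (∃ j, ((p : ℕ) : ℤ) ∣ (x.2.1 j).leadingCoeff) ∨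
        ∃ i, ((p : ℕ) : ℤ) ∣ x.2.2.1 i * x.2.2.2.1 i) → p ∈ x.2.2.2.2.2.1) → 1 ≤ x.2.2.2.2.2.2.2 →
      ∀ D e : ℝ, ∀ᶠ n : ℕ in atTop, ∀ k : Fin s → ℤ,
        (∀ j, |(k j : ℝ) - κ j * l n ^ (x.2.1 j).natDegree| ≤ D * Real.log (l n) ^ e) →
          WAMp x.2.1 x.2.2.1 x.2.2.2.1 x.2.2.2.2.1 x.2.2.2.2.2.1 x.2.2.2.2.2.2.1 x.2.2.2.2.2.2.2 ⌈l n⌉₊ k := by
    rw [ae_all_iff]
    rintro ⟨r, f, a, c, E, T, N, B⟩
    by_cases hf : ∀ j, 1 ≤ (f j).natDegree
    swap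
    · exact Filter.Eventually.of_forall fun κ h => absurd h hf
    by_cases ha : ∀ i, a i ≠ 0
    swap
    · exact Filter.Eventually.of_forall fun κ _ h => absurd h ha
    by_cases hc : ∀ i, c i ≠ 0
    swap
    · exact Filter.Eventually.of_forall fun κ _ _ h => absurd h hc
    by_cases hT : ∀ p : Nat.Primes, ((p : ℕ) = 2 ∨ (p : ℕ) ≤ ∑ j, (f j).natDegree ∨ (∃ j, ((p : ℕ) : ℤ) ∣ (f j).leadingCoeff) ∨
        ∃ i, ((p : ℕ) : ℤ) ∣ a i * c i) → p ∈ T
    swap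
    · exact Filter.Eventually.of_forall fun κ _ _ _ h => absurd h hT
    by_cases hB : 1 ≤ B
    swap
    · exact Filter.Eventually.of_forall fun κ _ _ _ _ h => absurd h hB
    have h1 := Pool.Agent.Q138.PS.vec_ae (fun j => (f j).natDegree) hf l δ hδ hl (fun X k => WAMp f a c E T N B X k)
      (fun B0 U => wamp_count f hf a c ha hc E T hT N B hB B0 U)
    filter_upwards [h1] with κ hκ _ _ _ _ _ using hκ
  filter_upwards [h0] with κ hκ r f a c E T hf ha hc hT N B hB D e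
  filter_upwards [hκ ⟨r, f, a, c, E, T, N, B⟩ hf ha hc hT hB D e] with n hn k hk
  have h1 := hn k hk
  have h2 : OnlyObstruction f a c E T N B ⌈l n⌉₊ k := by
    intro t y z tr yr zr hg ho
    refine h1 t y z tr yr zr hg.1 hg.2.1 hg.2.2.1 hg.2.2.2.1 hg.2.2.2.2 (fun i j hj => ?_)
    have h3 := ho i j hj
    rw [count_eq f (a i) (ha i) T k j t tr (fun p hp => (hg.1 p hp).1.1 j) (hg.2.1.1 j)] at h3
    convert h3
  refine ⟨h2, fun hE t y z tr yr zr hg => h2 t y z tr yr zr hg ?_⟩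
  exact auto f a c ha hc E hE T (fun p hp => hT p (Or.inl hp)) (by
    rintro p ⟨i, h | h⟩
    · exact hT p (Or.inr (Or.inr (Or.inr ⟨i, h.mul_right _⟩)))
    · exact hT p (Or.inr (Or.inr (Or.inr ⟨i, h.mul_left _⟩)))) N B _ k t y z tr yr zr hg

end Pool.Agent.Results.MP_83e36b_nt.ShiftsNearSequences
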