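import Pool.Agent.Q296.TW.Hyp
import Pool.Agent.Q52.Tw.Count

/-!
# Twists of rationally connected varieties without local points over all fields of degree prime to `ℓ`

Let `ℓ` be a prime, `q = ℓ ^ k` and `X ⊂ ℙ^(n-1)` a projective variety over `ℚ`, the zero set
of the homogeneous polynomials `F_j` over `ℤ`, which is stable under the action
`ζ (x_1, …, x_n) = (ζ ^ w_1 x_1, …, ζ ^ w_n x_n)` of the group `μ_q` of roots of unity.  For an integer
`d ≠ 0` let `X_d` be the twist of `X` by the class of `d` in `ℚ* / ℚ* ^ q = H¹(ℚ, μ_q)`: the points of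
`X_d` over a field `E` are the `(x_1, …, x_n)` in `ℙ^(n-1)(E)` with `(δ ^ w_1 x_1, …, δ ^ w_n x_n) ∈ X`,
where `δ ^ q = d`.

We show that for all but

  `C N exp (- ∑_{p ≤ N} 1 / p)`

of the integers `d`, `0 < |d| ≤ N`, there is a prime `p` such that all the closed points of `X_d` over
`ℚ_p` have degree divisible by `ℓ`, and such that every number field `L` of degree prime to `ℓ` has a
place `v` above `p` where `X_d` has no point over the completion `L_v`.  The sum is over the primes `p`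
such that no extension of `𝔽_p` of degree prime to `ℓ` contains the coordinates of a fixed point of
`μ_q` on `X` modulo `p`, and `C` is an absolute constant, the same for all `X`, all dimensions and all
`ℓ`, `k`.  So for these `d` the set of adelic points of `X_d` over `L` is empty for all the number fields
`L` of degree prime to `ℓ`, and the statement of Q1 is true for `X_d` over `L`.

The second part is a family of Fano varieties.  Let `F_0, …, F_{r-1}`, `r ≤ ℓ`, be binary forms of degree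
`ℓ` over `ℤ`, and `X_d` the hypersurface

  `F_0(x_0, t_0) + d F_1(x_1, t_1) + ⋯ + d^{r-1} F_{r-1}(x_{r-1}, t_{r-1}) = 0`

of degree `ℓ` in `ℙ^(2r-1)`; it is smooth if the `F_i` are separable and `d ≠ 0`, and then it is rationally
connected if `ℓ < 2 r`: cubic surfaces (`ℓ = 3`, `r = 2`), cubic fourfolds (`ℓ = r = 3`), quintic
hypersurfaces in `ℙ⁵`, `ℙ⁷`, `ℙ⁹`, and so on.  Here the sum is over the primes `p` such that all the `F_i`
are irreducible modulo `p`.  By Chebotarev's theorem these primes have a density `α`, and `α > 0` for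
instance if all `F_i` are equal to one irreducible form; then the number of exceptional `d` is
`O(N / (log N) ^ α)`.

Proof.  Let `p` be one of the primes, and suppose that it divides `d` exactly once.  Let `E` be a finite
extension of `ℚ_p` of degree prime to `ℓ`, so the ramification index `e` and the residue degree `f` are
prime to `ℓ`.  If `x` is a point of `X_d` over `E`, then among the `δ ^ w_i x_i` those with the least
valuation have the same `w_i` modulo `q`, since the valuation of `δ` is `e / q`.  Therefore the reduction of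
the point `(δ ^ w_i x_i)` of `X` is a fixed point, defined over the residue field of `E`, a
contradiction.  A number field of degree prime to `ℓ` has a completion `E` like this.  The integers which
none of the primes divides exactly once are counted with the method of Hall and Tenenbaum.
-/

set_option autoImplicit false

open NumberField IsDedekindDomain

namespace Pool.Agent.Results.MP_83e36b_nt.TwistsLocalPoints

/-- `X` has a fixed point of `μ_q` over the field `κ`: a zero `z ≠ 0` of all `F_j` whose coordinates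
`z_i ≠ 0` have the same weight modulo `q`. -/
def HasFixedPoint {n : ℕ} {J : Type} (F : J → MvPolynomial (Fin n) ℤ) (w : Fin n → ℕ) (q : ℕ)
    (κ : Type) [Field κ] : Prop :=
  ∃ z : Fin n → κ, z ≠ 0 ∧ (∀ i i', z i ≠ 0 → z i' ≠ 0 → w i ≡ w i' [MOD q]) ∧
    ∀ j, MvPolynomial.eval₂ (Int.castRingHom κ) z (F j) = 0

/-- The primes `p` such that there are no fixed points of `μ_q`, `q = ℓ ^ k`, over the fields with
`p ^ f` elements, for all `f` prime to `ℓ`. -/
def Obstructing {n : ℕ} {J : Type} (F : J → MvPolynomial (Fin n) ℤ) (w : Fin n → ℕ) (ℓ k : ℕ) :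
    Set ℕ :=
  {p | ∀ (κ : Type) [Field κ] (f : ℕ), Nat.card κ = p ^ f → ¬ ℓ ∣ f →
    ¬ HasFixedPoint F w (ℓ ^ k) κ}

/-- The twist `X_d` has a point over `E`: there are `x ∈ E ^ n`, `x ≠ 0`, and an algebraic element `δ`
with `δ ^ q = d` such that all `F_j` vanish at `(δ ^ w_1 x_1, …, δ ^ w_n x_n)`. -/
def TwistHasPoint {n : ℕ} {J : Type} (F : J → MvPolynomial (Fin n) ℤ) (w : Fin n → ℕ) (q : ℕ)
    (d : ℤ) (E : Type) [Field E] : Prop :=
  ∃ (x : Fin n → E) (δ : AlgebraicClosure E), x ≠ 0 ∧ δ ^ q = (d : AlgebraicClosure E) ∧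
    ∀ j, MvPolynomial.eval₂ (Int.castRingHom (AlgebraicClosure E))
      (fun i => δ ^ (w i) * algebraMap E (AlgebraicClosure E) (x i)) (F j) = 0

/-- The value `F_i(x, t)` of the binary form of degree `ℓ` with coefficients `c i l`, the coefficient
of `x ^ l t ^ (ℓ - l)`. -/
def form {r ℓ : ℕ} (c : Fin r → Fin (ℓ + 1) → ℤ) {E : Type} [Field E] (i : Fin r) (x t : E) : E :=
  ∑ l : Fin (ℓ + 1), (c i l : E) * x ^ (l : ℕ) * t ^ (ℓ - l)

/-- The hypersurface `∑ dⁱ F_i(x_i, t_i) = 0` in `ℙ^(2r-1)` has a point over `E`. -/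
def HypersurfaceHasPoint {r ℓ : ℕ} (c : Fin r → Fin (ℓ + 1) → ℤ) (d : ℤ) (E : Type) [Field E] :
    Prop :=
  ∃ x t : Fin r → E, (∃ i, x i ≠ 0 ∨ t i ≠ 0) ∧
    ∑ i : Fin r, (d : E) ^ (i : ℕ) * form c i (x i) (t i) = 0

open Polynomial in
/-- The primes `p` such that all `F_i(x, 1)` are irreducible of degree `ℓ` modulo `p`. -/
def Inert {r ℓ : ℕ} (c : Fin r → Fin (ℓ + 1) → ℤ) : Set ℕ :=
  {p | ∀ i, ((c i (Fin.last ℓ) : ℤ) : ZMod p) ≠ 0 ∧
    Irreducible (∑ l : Fin (ℓ + 1), C ((c i l : ℤ) : ZMod p) * X ^ (l : ℕ))}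

/-- The variety with the points `P E` over the fields `E` is obstructed: there is a prime `p` such that

* for all finite extensions `E` of `ℚ_p` over which there is a point, `ℓ` divides `[E : ℚ_p]`;
* every number field `L` of degree prime to `ℓ` has a place `v` above `p` such that there is no point
  over the completion `L_v`. -/
def Obstructed (P : (E : Type) → [Field E] → Prop) (ℓ : ℕ) : Prop :=
  ∃ (p : ℕ) (_ : Fact p.Prime),
    (∀ (E : Type) [Field E] [Algebra ℚ_[p] E] [FiniteDimensional ℚ_[p] E], P E →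
      ℓ ∣ Module.finrank ℚ_[p] E) ∧
    ∀ (L : Type) [Field L] [NumberField L], ¬ ℓ ∣ Module.finrank ℚ L →
      ∃ v : HeightOneSpectrum (𝓞 L), (p : 𝓞 L) ∈ v.asIdeal ∧ ¬ P (v.adicCompletion L)

/-- The integers `d`, `0 < |d| ≤ N`, such that the variety with the points `P d E` over the fields `E`
is not obstructed. -/
def Exceptional (P : ℤ → (E : Type) → [Field E] → Prop) (ℓ N : ℕ) : Set ℤ :=
  {d | d ≠ 0 ∧ |d| ≤ N ∧ ¬ Obstructed (P d) ℓ}

open Classical in
/-- The sum of `1 / p` over the primes `p ≤ N` in the set `V`. -/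
noncomputable def reciprocalSum (V : Set ℕ) (N : ℕ) : ℝ :=
  ∑ p ∈ (Finset.Icc 1 N).filter (fun p => p.Prime ∧ p ∈ V), 1 / (p : ℝ)

open Classical in
/-- the counting argument -/
lemma count_exceptional (C : ℝ) (hC : ∀ (V : Set ℕ) (N : ℕ), 2 ≤ N →
      ((((Finset.Icc 1 N).filter (fun n => Pool.Agent.Q52.Tw.NoExact V n)).card : ℕ) : ℝ) ≤
        C * N * Real.exp (-Pool.Agent.Q52.Tw.recSum V N))
    (P : ℤ → (E : Type) → [Field E] → Prop) (ℓ : ℕ) (V : Set ℕ)
    (h : ∀ (d : ℤ) (p : ℕ), p.Prime → p ∈ V → (p : ℤ) ∣ d → ¬ (p : ℤ) ^ 2 ∣ d →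
      Obstructed (P d) ℓ) (N : ℕ) (hN : 2 ≤ N) :
    ((Exceptional P ℓ N).ncard : ℝ) ≤ 2 * C * N * Real.exp (-reciprocalSum V N) := by
  classical
  set S := (Finset.Icc 1 N).filter (fun n => Pool.Agent.Q52.Tw.NoExact V n) with hS
  have hsub : Exceptional P ℓ N ⊆
      ((S.image (fun n : ℕ => (n : ℤ)) ∪ S.image (fun n : ℕ => -(n : ℤ)) : Finset ℤ) : Set ℤ) := by
    rintro d ⟨hd0, hdN, hobs⟩
    have hmem : d.natAbs ∈ S := by
      rw [hS, Finset.mem_filter, Finset.mem_Icc]
      refine ⟨⟨Int.natAbs_pos.2 hd0, ?_⟩, ?_⟩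
      · have : ((d.natAbs : ℕ) : ℤ) ≤ (N : ℤ) := by
          rw [Int.natCast_natAbs]
          exact hdN
        exact_mod_cast this
      · intro p hp hpV h1
        have hn0 : d.natAbs ≠ 0 := Int.natAbs_ne_zero.2 hd0
        have h2 : (p : ℤ) ∣ d := by
          rw [Int.natCast_dvd, ← pow_one p, hp.pow_dvd_iff_le_factorization hn0, h1]
        have h3 : ¬ (p : ℤ) ^ 2 ∣ d := by
          rw [← Nat.cast_pow, Int.natCast_dvd, hp.pow_dvd_iff_le_factorization hn0, h1]
          norm_num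
        exact hobs (h d p hp hpV h2 h3)
    rw [Finset.mem_coe, Finset.mem_union, Finset.mem_image, Finset.mem_image]
    rcases Int.natAbs_eq d with h1 | h1
    · exact Or.inl ⟨d.natAbs, hmem, h1.symm⟩
    · exact Or.inr ⟨d.natAbs, hmem, h1.symm⟩
  have h1 : (Exceptional P ℓ N).ncard ≤ 2 * S.card := by
    refine (Set.ncard_le_ncard hsub (Finset.finite_toSet _)).trans ?_
    rw [Set.ncard_coe_finset]
    refine (Finset.card_union_le _ _).trans ?_
    have h2 := Finset.card_image_le (s := S) (f := fun n : ℕ => (n : ℤ))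
    have h3 := Finset.card_image_le (s := S) (f := fun n : ℕ => -(n : ℤ))
    omega
  have h2 := hC V N hN
  have h3 : Pool.Agent.Q52.Tw.recSum V N = reciprocalSum V N := rfl
  rw [h3] at h2
  calc ((Exceptional P ℓ N).ncard : ℝ) ≤ 2 * (S.card : ℝ) := by exact_mod_cast h1
    _ ≤ 2 * (C * N * Real.exp (-reciprocalSum V N)) :=
        mul_le_mul_of_nonneg_left h2 (by norm_num)
    _ = _ := by ring

/-- a prime dividing `d` exactly once and without fixed points obstructs the twist -/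
lemma obstructed_twist {n : ℕ} {J : Type} (F : J → MvPolynomial (Fin n) ℤ) (D : J → ℕ)
    (hF : ∀ j, (F j).IsHomogeneous (D j)) (w : Fin n → ℕ) (ℓ k : ℕ) (hℓ : ℓ.Prime) (d : ℤ) (p : ℕ)
    (hp : p.Prime) (hpV : p ∈ Obstructing F w ℓ k) (hd : (p : ℤ) ∣ d) (hd' : ¬ (p : ℤ) ^ 2 ∣ d) :
    Obstructed (TwistHasPoint F w (ℓ ^ k) d) ℓ := by
  refine ⟨p, ⟨hp⟩, ?_, ?_⟩
  · intro E _ _ _ hpt
    obtain ⟨x, δ, hx, hδ, h⟩ := hpt
    by_contra hl
    have : Fact p.Prime := ⟨hp⟩
    obtain ⟨κ, fκ, f, hcard, hf, hz⟩ := Pool.Agent.Q296.TW.local_red p E ℓ hℓ hl d hd hd' k w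
          F D hF x hx δ hδ h
    exact hpV κ f hcard hf hz
  · intro L _ _ hl
    obtain ⟨v, hv, κ, fκ, f, hcard, hf, hz⟩ := Pool.Agent.Q296.TW.compl_red L p hp ℓ hℓ hl d hd hd'
    refine ⟨v, hv, ?_⟩
    rintro ⟨x, δ, hx, hδ, h⟩
    exact hpV κ f hcard hf (hz k w F D hF x hx δ hδ h)

/-- **Few twists have local points.** There is a constant `C` such that

* for all homogeneous polynomials `F_j` in `n` variables over `ℤ`, all weights `w_1, …, w_n`, all primes
  `ℓ` and all `k`, `N ≥ 2`, for all but `C N exp (- ∑ 1 / p)` of the integers `d`, `0 < |d| ≤ N`, the twist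
  `X_d` of `X = {F_j = 0}` is obstructed, the sum over the primes `p ≤ N` for which `μ_q`, `q = ℓ ^ k`,
  has no fixed point on `X` modulo `p` over the extensions of `𝔽_p` of degree prime to `ℓ`;
* for all primes `ℓ`, all binary forms `F_0, …, F_{r-1}`, `r ≤ ℓ`, of degree `ℓ` over `ℤ` and all `N ≥ 2`,
  for all but `C N exp (- ∑ 1 / p)` of the integers `d`, `0 < |d| ≤ N`, the hypersurface
  `∑ dⁱ F_i(x_i, t_i) = 0` is obstructed, the sum over the primes `p ≤ N` modulo which all `F_i` are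
  irreducible of degree `ℓ`. -/
theorem result : ∃ C : ℝ,
    (∀ (n : ℕ) (J : Type) (F : J → MvPolynomial (Fin n) ℤ) (D : J → ℕ),
      (∀ j, (F j).IsHomogeneous (D j)) → ∀ (w : Fin n → ℕ) (ℓ k : ℕ), ℓ.Prime → ∀ N : ℕ, 2 ≤ N →
      ((Exceptional (TwistHasPoint F w (ℓ ^ k)) ℓ N).ncard : ℝ) ≤
        C * N * Real.exp (-reciprocalSum (Obstructing F w ℓ k) N)) ∧
    (∀ (r ℓ : ℕ), ℓ.Prime → r ≤ ℓ → ∀ (c : Fin r → Fin (ℓ + 1) → ℤ) (N : ℕ), 2 ≤ N →
      ((Exceptional (HypersurfaceHasPoint c) ℓ N).ncard : ℝ) ≤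
        C * N * Real.exp (-reciprocalSum (Inert c) N)) := by
  classical
  obtain ⟨C, hC0, hC⟩ := Pool.Agent.Q52.Tw.count
  refine ⟨2 * C, ?_, ?_⟩
  · intro n J F D hF w ℓ k hℓ N hN
    exact count_exceptional C hC _ ℓ _ (fun d p hp hpV hd hd' =>
      obstructed_twist F D hF w ℓ k hℓ d p hp hpV hd hd') N hN
  · intro r ℓ hℓ hr c N hN
    refine count_exceptional C hC _ ℓ _ (fun d p hp hpV hd hd' => ?_) N hN
    have hobs : p ∈ Obstructing (fun _ : Unit => Pool.Agent.Q296.TW.hyp c)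
        Pool.Agent.Q296.TW.wt ℓ 1 := by
      intro κ _ f hcard hf hfix
      obtain ⟨z, hz, hw, h0⟩ := hfix
      exact Pool.Agent.Q296.TW.no_fixed hℓ hr c p hp (fun i => (hpV i).1) (fun i => (hpV i).2) κ f
        hcard hf z hz hw (h0 ())
    obtain ⟨p', hp', h1, h2⟩ := obstructed_twist (fun _ : Unit => Pool.Agent.Q296.TW.hyp c)
      (fun _ => ℓ) (fun _ => Pool.Agent.Q296.TW.hyp_hom c) Pool.Agent.Q296.TW.wt ℓ 1 hℓ d p hp
      hobs hd hd'
    have key : ∀ (E : Type) [Field E], HypersurfaceHasPoint c d E →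
        TwistHasPoint (fun _ : Unit => Pool.Agent.Q296.TW.hyp c) Pool.Agent.Q296.TW.wt (ℓ ^ 1) d
          E := by
      intro E _ hE
      obtain ⟨x, t, hne, h0⟩ := hE
      obtain ⟨z, δ, hz, hδ, h3⟩ := Pool.Agent.Q296.TW.point_twist hℓ.ne_zero c d E x t hne h0
      exact ⟨z, δ, hz, hδ, fun _ => h3⟩
    refine ⟨p', hp', fun E _ _ _ hE => h1 E (key E hE), fun L _ _ hl => ?_⟩
    obtain ⟨v, hv, hv'⟩ := h2 L hl
    exact ⟨v, hv, fun h => hv' (key _ h)⟩

end Pool.Agent.Results.MP_83e36b_nt.TwistsLocalPoints
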